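import Pool.Agent.Helper71q.Fin

set_option autoImplicit false

open Pool.Agent.H75.QP Pool.Agent.Helper71q in
/-- Full answer. `(A, u)` is the universal C*-algebra `C(S_n^+)`; `O1 A`, `O2 u`, `O3 u`, `O4 A` are
the weak-* topology and the topologies of `d_1`, `d_∧` and total variation on the tracial states.
For every `n ≥ 4` they are pairwise distinct, with the only exception `O1 = O2` for `n = 4`. -/
theorem Pool.Agent.Results.MP_ac7c8e_an.ExactlyFromFive.result :
  ∀ (n : ℕ), 4 ≤ n → ∀ (A : Type) [CStarAlgebra A] (u : Fin n → Fin n → A), Universal u →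
    (O1 A = O2 u ↔ n = 4) ∧ O1 A ≠ O3 u ∧ O1 A ≠ O4 A ∧ O2 u ≠ O3 u ∧ O2 u ≠ O4 A ∧ O3 u ≠ O4 A :=
  fun _ hn _ _ _ hu => final hn hu
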